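import Pool.Agent.H.MP_76c0db_an.A

set_option autoImplicit false

namespace Pool.Agent.H.MP_12d91b_an

open scoped Topology
open Filter Real
open Pool.Agent.H.MP_fb0356_an (tr tr_apply tr_inv tr_add)
open Pool.Agent.H.MP_76c0db_an (mvt exmax ucont)

def C1 : Subgroup (Equiv.Perm ℝ) where
  carrier := {F | ContDiff ℝ 1 F ∧ ContDiff ℝ 1 ⇑F⁻¹}
  one_mem' := ⟨contDiff_id, contDiff_id⟩
  mul_mem' := fun ha hb => ⟨ha.1.comp hb.1, hb.2.comp ha.2⟩
  inv_mem' := fun ha => ⟨ha.2, ha.1⟩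

variable {f g : Equiv.Perm ℝ}

lemma dif (hf : f ∈ C1) : Differentiable ℝ f := hf.1.differentiable (by simp)

lemma D_mul (hf : f ∈ C1) (hg : g ∈ C1) (x : ℝ) : deriv ⇑(f * g) x = deriv f (g x) * deriv g x :=
  deriv_comp x (dif hf _) (dif hg x)

lemma D_ne (hf : f ∈ C1) (x : ℝ) : deriv f x ≠ 0 := fun h => by
  have := D_mul (inv_mem hf) hf x
  rw [h, mul_zero, inv_mul_cancel, Equiv.Perm.coe_one, deriv_id] at this
  exact one_ne_zero this

noncomputable def lg (g : Equiv.Perm ℝ) (x : ℝ) : ℝ := log (deriv g x)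

lemma lg_mul (hf : f ∈ C1) (hg : g ∈ C1) (x : ℝ) : lg (f * g) x = lg f (g x) + lg g x := by
  rw [lg, D_mul hf hg, log_mul (D_ne hf _) (D_ne hg _), lg, lg]

lemma lg_one (x : ℝ) : lg 1 x = 0 := by simp [lg]

lemma lg_cont (hf : f ∈ C1) : Continuous (lg f) := (hf.1.continuous_deriv le_rfl).log (D_ne hf)

lemma mvt' (hf : f ∈ C1) (y z : ℝ) : ∃ ξ ∈ Set.uIcc y z, |f z - f y| = exp (lg f ξ) * |z - y| := by
  obtain ⟨ξ, h, e⟩ := mvt (dif hf) y z
  exact ⟨ξ, h, by rw [e, abs_mul, lg, exp_log_eq_abs (D_ne hf ξ)]⟩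

lemma btw (hf : Continuous f) {x y z : ℝ} (h : z ∈ Set.uIcc x y) : f z ∈ Set.uIcc (f x) (f y) :=
  (hf.strictMono_of_inj f.injective).elim (fun h' => h'.monotone.mapsTo_uIcc h)
    fun h' => h'.antitone.mapsTo_uIcc h

lemma ball_img (hf : Continuous f) {p r m : ℝ} (hr : 0 < r)
    (h : ∀ y, |y - p| = r → m ≤ |f y - f p|) {y : ℝ} (hy : |f y - f p| < m) : |y - p| < r := by
  refine not_le.1 fun h1 => ?_
  obtain ⟨z, h2, h3⟩ : ∃ z, |z - p| = r ∧ z ∈ Set.uIcc p y := by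
    rcases le_abs.1 h1 with h1 | h1
    · exact ⟨p + r, by simp [hr.le], Set.mem_uIcc_of_le (by linarith) (by linarith)⟩
    · exact ⟨p - r, by simp [hr.le], Set.mem_uIcc_of_ge (by linarith) (by linarith)⟩
  linarith [Set.abs_sub_left_of_mem_uIcc (btw hf h3), h z h2]

def ev (w : List (Equiv.Perm ℝ)) : Equiv.Perm ℝ := w.reverse.prod

@[simp] lemma ev_nil : ev [] = 1 := rfl
@[simp] lemma ev_one (s : Equiv.Perm ℝ) : ev [s] = s := by simp [ev]
lemma ev_app (u v : List (Equiv.Perm ℝ)) : ev (u ++ v) = ev v * ev u := by simp [ev]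

structure St where
  Γ : Subgroup (Equiv.Perm ℝ)
  S : Set (Equiv.Perm ℝ)
  l : ℝ
  κ : ℝ
  L : ℝ
  hΓ : Γ ≤ C1
  hS : ∀ s ∈ S, s ∈ Γ
  htr : ∀ k : ℤ, tr k ∈ Γ
  l0 : 0 < l
  κ0 : 0 < κ
  κ1 : 6 * κ ≤ 1
  L0 : 0 ≤ L
  hL : ∀ s ∈ S, ∀ x, -L ≤ lg s x
  hδ : ∀ s ∈ S, ∀ y z, |y - z| ≤ 3 * κ → |lg s y - lg s z| ≤ l / 2
  hm : ∀ e > 0, ∃ d > 0, ∀ s ∈ S, ∀ y z, |y - z| ≤ d → |lg s y - lg s z| ≤ e
  nr : ∀ f ∈ Γ, ∀ g ∈ Γ, ∀ x y, x < f x → f x < f y → f y < g x → g x < g y → g y < y →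
    y < x + 1 → False

namespace St

variable (T : St)

def Con (z : ℝ) (w : List (Equiv.Perm ℝ)) : Prop :=
  (∀ s ∈ w, s ∈ T.S) ∧ ∀ u v, w = u ++ v → lg (ev u) z ≤ -(T.l * u.length)

variable {T} {z : ℝ} {u v w : List (Equiv.Perm ℝ)}

lemma evΓ (h : ∀ s ∈ w, s ∈ T.S) : ev w ∈ T.Γ :=
  list_prod_mem fun s hs => T.hS s (h s (List.mem_reverse.1 hs))

lemma evC (h : ∀ s ∈ w, s ∈ T.S) : ev w ∈ C1 := T.hΓ (evΓ h)

lemma Con.pre (h : T.Con z (u ++ v)) : T.Con z u :=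
  ⟨fun s hs => h.1 s (by simp [hs]), fun a b e => h.2 a (b ++ v) (by simp [e])⟩

lemma low (h : ∀ s ∈ w, s ∈ T.S) (z : ℝ) : -(T.L * w.length) ≤ lg (ev w) z := by
  induction w using List.reverseRecOn with
  | nil => simp [lg_one]
  | append_singleton w s ih =>
    have h1 : ∀ t ∈ w, t ∈ T.S := fun t ht => h t (by simp [ht])
    have h2 : s ∈ T.S := h s (by simp)
    rw [ev_app, ev_one, lg_mul (T.hΓ (T.hS s h2)) (evC h1), List.length_append]
    push_cast; simp only [List.length_singleton, Nat.cast_one]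
    linarith [ih h1, T.hL s h2 (ev w z)]

lemma contr' (h : T.Con z w) (h1 : ∀ y, |y - z| ≤ 3 * T.κ →
    |lg (ev w) y - lg (ev w) z| ≤ T.l / 2 * w.length) {x y : ℝ} (hx : |x - z| ≤ 3 * T.κ)
    (hy : |y - z| ≤ 3 * T.κ) : |ev w y - ev w x| ≤ exp (-(T.l / 2 * w.length)) * |y - x| := by
  obtain ⟨ξ, h2, e⟩ := mvt' (evC h.1) x y
  rw [abs_sub_le_iff] at hx hy
  have h3 := Set.uIcc_subset_Icc (a₂ := z - 3 * T.κ) (b₂ := z + 3 * T.κ)
    ⟨by linarith, by linarith⟩ ⟨by linarith, by linarith⟩ h2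
  have h4 := abs_le.1 (h1 ξ (abs_le.2 ⟨by linarith [h3.1], by linarith [h3.2]⟩))
  rw [e]
  exact mul_le_mul_of_nonneg_right (exp_le_exp.2 (by linarith [h.2 w [] (by simp)])) (abs_nonneg _)

lemma dis {e d : ℝ} {N : ℕ} (he : 0 ≤ e) (hd : exp (-(T.l / 2 * N)) * (3 * T.κ) ≤ d)
    (hm : ∀ s ∈ T.S, ∀ y z, |y - z| ≤ d → |lg s y - lg s z| ≤ e) (h : T.Con z w) :
    ∀ y, |y - z| ≤ 3 * T.κ → |lg (ev w) y - lg (ev w) z| ≤ T.l / 2 * w.length ∧
      |lg (ev w) y - lg (ev w) z| ≤ e * w.length + T.l / 2 * (min w.length N : ℕ) := by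
  induction w using List.reverseRecOn with
  | nil => simp [lg_one]
  | append_singleton w s ih =>
    intro y hy
    have h1 := ih h.pre
    have h2 : s ∈ T.S := h.1 s (by simp)
    have h3 := (contr' h.pre (fun y hy => (h1 y hy).1) (by simp [T.κ0.le]) hy).trans
      (mul_le_mul_of_nonneg_left hy (exp_pos _).le)
    have l0 := T.l0
    have κ0 := T.κ0
    have h4 := T.hδ s h2 _ _ (h3.trans (mul_le_of_le_one_left (by positivity)
      (exp_le_one_iff.2 (neg_nonpos.2 (by positivity)))))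
    rw [ev_app, ev_one, lg_mul (T.hΓ (T.hS s h2)) (evC h.pre.1),
      lg_mul (T.hΓ (T.hS s h2)) (evC h.pre.1), add_sub_add_comm, List.length_append,
      List.length_singleton]
    refine ⟨(abs_add_le _ _).trans (by push_cast; linarith [(h1 y hy).1]),
      (abs_add_le _ _).trans ?_⟩
    have h5 := (h1 y hy).2
    rcases lt_or_ge w.length N with h6 | h6
    · rw [min_eq_left h6.le] at h5
      rw [min_eq_left h6]; push_cast; linarith
    · rw [min_eq_right h6] at h5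
      rw [min_eq_right (by omega)]
      have := hm s h2 _ _ (h3.trans ((mul_le_mul_of_nonneg_right (exp_le_exp.2 (neg_le_neg
        (mul_le_mul_of_nonneg_left (Nat.cast_le.2 h6) (by positivity)))) (by positivity)).trans hd))
      push_cast; linarith

lemma contr (h : T.Con z w) {x y : ℝ} (hx : |x - z| ≤ 3 * T.κ)
    (hy : |y - z| ≤ 3 * T.κ) : |ev w y - ev w x| ≤ exp (-(T.l / 2 * w.length)) * |y - x| :=
  contr' h (fun y hy => (dis (N := 0) (half_pos T.l0).le (by simp) T.hδ h y hy).1) hx hy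

lemma exN (T : St) {d : ℝ} (hd : 0 < d) : ∃ N : ℕ, exp (-(T.l / 2 * N)) ≤ d := by
  obtain ⟨N, hN⟩ := exists_nat_ge (-log d / (T.l / 2))
  rw [div_le_iff₀ (half_pos T.l0)] at hN
  exact ⟨N, (le_log_iff_exp_le hd).1 (by linarith)⟩

lemma dist (T : St) {e : ℝ} (he : 0 < e) : ∃ C ≥ 0, ∀ z w, T.Con z w → ∀ x y, |x - z| ≤ 3 * T.κ →
    |y - z| ≤ 3 * T.κ → exp (lg (ev w) z - C - e * w.length) * |y - x| ≤ |ev w y - ev w x| ∧
      |ev w y - ev w x| ≤ exp (lg (ev w) z + C + e * w.length) * |y - x| := by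
  obtain ⟨d, d0, hd⟩ := T.hm e he
  have κ0 := T.κ0
  have l0 := T.l0
  obtain ⟨N, hN⟩ := T.exN (show 0 < d / (3 * T.κ) by positivity)
  refine ⟨T.l / 2 * N, by positivity, fun z w h x y hx hy => ?_⟩
  obtain ⟨ξ, h2, e1⟩ := mvt' (evC h.1) x y
  rw [abs_sub_le_iff] at hx hy
  have h3 := Set.uIcc_subset_Icc (a₂ := z - 3 * T.κ) (b₂ := z + 3 * T.κ)
    ⟨by linarith, by linarith⟩ ⟨by linarith, by linarith⟩ h2
  have h4 := abs_le.1 ((dis he.le ((le_div_iff₀ (by positivity)).1 hN) hd h ξ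
    (abs_le.2 ⟨by linarith [h3.1], by linarith [h3.2]⟩)).2.trans (add_le_add_right
    (mul_le_mul_of_nonneg_left (Nat.cast_le.2 (min_le_right _ _)) (by positivity)) _))
  rw [e1]
  constructor <;> exact mul_le_mul_of_nonneg_right (exp_le_exp.2 (by linarith)) (abs_nonneg _)

lemma pliss (h : ∀ s ∈ w, s ∈ T.S) (z : ℝ) :
    ∃ u v, w = u ++ v ∧ T.Con (ev u z) v ∧ -(T.l * u.length) ≤ lg (ev u) z := by
  classical
  obtain ⟨u, hu, h1⟩ := w.inits.toFinset.exists_max_image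
    (fun u => lg (ev u) z + T.l * u.length) ⟨[], by simp⟩
  simp only [List.mem_toFinset, List.mem_inits] at hu h1
  obtain ⟨v, rfl⟩ := hu
  refine ⟨u, v, rfl, ⟨fun s hs => h s (by simp [hs]), ?_⟩, ?_⟩
  · rintro a b rfl
    have := h1 (u ++ a) ⟨b, by simp⟩
    rw [ev_app, lg_mul (evC fun s hs => h s (by simp [hs])) (evC fun s hs => h s (by simp [hs])),
      List.length_append] at this
    push_cast at this; linarith
  · have := h1 [] (by simp)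
    simp [lg_one] at this; linarith

lemma pp {a b : ℝ} (hf : f ∈ T.Γ) (hg : g ∈ T.Γ) (hab : a < b) (h1 : b < a + 1)
    (h2 : ∀ x ∈ Set.Icc a b, f x ∈ Set.Ioo a b) (h3 : ∀ x ∈ Set.Icc a b, g x ∈ Set.Ioo a b)
    (h4 : ∀ x ∈ Set.Icc a b, ∀ y ∈ Set.Icc a b, f x < g y) : False := by
  have h5 : ∀ f ∈ T.Γ, StrictMono ⇑(f * f) := fun f hf =>
    ((T.hΓ hf).1.continuous.strictMono_of_inj f.injective).elim (fun h => h.comp h) fun h => h.comp h
  have ha := Set.left_mem_Icc.2 hab.le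
  have hb := Set.right_mem_Icc.2 hab.le
  have := Set.Ioo_subset_Icc_self (a := a) (b := b)
  exact T.nr _ (mul_mem hf hf) _ (mul_mem hg hg) a b (h2 _ (this (h2 _ ha))).1 (h5 f hf hab)
    (h4 _ (this (h2 _ hb)) _ (this (h3 _ ha))) (h5 g hg hab) (h3 _ (this (h3 _ hb))).2 h1

def Cen (T : St) (a b p : ℝ) : Prop := ∀ η > 0, ∃ f ∈ T.Γ, ∀ y ∈ Set.Icc a b, |f y - p| < η

lemma cen_of {a b : ℝ} (hf : f ∈ T.Γ) (hab : a ≤ b) (hm : Set.MapsTo f (Set.Icc a b) (Set.Icc a b))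
    (hc : ∀ x ∈ Set.Icc a b, ∀ y ∈ Set.Icc a b, |f y - f x| ≤ 1 / 2 * |y - x|) :
    ∃ p ∈ Set.Icc a b, f p = p ∧ T.Cen a b p := by
  obtain ⟨p, hp, e⟩ := exists_mem_Icc_isFixedPt_of_mapsTo (T.hΓ hf).1.continuous.continuousOn hab hm
  refine ⟨p, hp, e, fun η hη => ?_⟩
  have h : ∀ n : ℕ, ∀ y ∈ Set.Icc a b, |(f ^ n) y - p| ≤ (1 / 2) ^ n * (b - a + 1) := fun n => by
    induction n with
    | zero => exact fun y hy => abs_le.2 ⟨by simp; linarith [hy.1, hp.2], by simp; linarith [hy.2, hp.1]⟩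
    | succ n ih =>
      intro y hy
      have h1 := hc p hp _ (hm.iterate n hy)
      rw [e, ← Equiv.Perm.coe_pow] at h1
      rw [pow_succ', pow_succ']
      exact h1.trans (by linarith [ih y hy])
  obtain ⟨n, hn⟩ := exists_pow_lt_of_lt_one (div_pos hη (show 0 < b - a + 1 by linarith))
    one_half_lt_one
  exact ⟨f ^ n, pow_mem hf n, fun y hy => (h n y hy).trans_lt ((lt_div_iff₀ (by linarith)).1 hn)⟩

lemma cen_eq {a b p q : ℝ} (h1 : b < a + 1) (hp : T.Cen a b p) (hq : T.Cen a b q) (hg : g ∈ T.Γ)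
    (h2 : p ∈ Set.Ioo a b) (h3 : g q ∈ Set.Ioo a b) : g q = p := by
  by_contra h
  obtain ⟨η, η0, h4, h5, h6, h7, h8⟩ : ∃ η > 0, 2 * η ≤ |g q - p| ∧ η ≤ p - a ∧ η ≤ b - p ∧
      η ≤ g q - a ∧ η ≤ b - g q := by
    have := abs_pos.2 (sub_ne_zero.2 h)
    refine ⟨min (|g q - p| / 2) (min (min (p - a) (b - p)) (min (g q - a) (b - g q))), ?_, ?_, ?_⟩
    · simp [h2.1, h2.2, h3.1, h3.2, this]
    · linarith [min_le_left (|g q - p| / 2) (min (min (p - a) (b - p)) (min (g q - a) (b - g q)))]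
    · simp
  obtain ⟨d, d0, hd⟩ := Metric.continuousAt_iff.1 ((T.hΓ hg).1.continuous.continuousAt (x := q)) η η0
  obtain ⟨f, hf, k1⟩ := hp η η0
  obtain ⟨f', hf', k2⟩ := hq d d0
  have k3 : ∀ y ∈ Set.Icc a b, |(g * f') y - g q| < η := fun y hy => hd (k2 y hy)
  have k4 : ∀ y ∈ Set.Icc a b, f y ∈ Set.Ioo a b := fun y hy =>
    ⟨by linarith [(abs_lt.1 (k1 y hy)).1], by linarith [(abs_lt.1 (k1 y hy)).2]⟩
  have k5 : ∀ y ∈ Set.Icc a b, (g * f') y ∈ Set.Ioo a b := fun y hy =>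
    ⟨by linarith [(abs_lt.1 (k3 y hy)).1], by linarith [(abs_lt.1 (k3 y hy)).2]⟩
  rcases le_abs.1 h4 with h | h
  · exact pp hf (mul_mem hg hf') (h2.1.trans h2.2) h1 k4 k5 fun x hx y hy => by
      linarith [(abs_lt.1 (k1 x hx)).2, (abs_lt.1 (k3 y hy)).1]
  · exact pp (mul_mem hg hf') hf (h2.1.trans h2.2) h1 k5 k4 fun x hx y hy => by
      linarith [(abs_lt.1 (k3 x hx)).2, (abs_lt.1 (k1 y hy)).1]

end St

end Pool.Agent.H.MP_12d91b_an
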