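import Pool.Agent.H.MP_12d91b_an.A

set_option autoImplicit false

namespace Pool.Agent.H.MP_12d91b_an

open scoped Topology ENNReal
open Filter Real MeasureTheory
open Pool.Agent.H.MP_fb0356_an (tr tr_apply tr_inv tr_add)

lemma count {Q : Set ℝ} {Ψ : ℝ → ℝ≥0∞} {c R : ℝ} (hc : 0 < c)
    (h : ∀ q ∈ Q, ∃ r, 0 < r ∧ r ≤ 1 ∧ (∀ q' ∈ Q, q' ∉ Set.Ioo q (q + r)) ∧
      ∀ y ∈ Set.Ioo q (q + r), ENNReal.ofReal (c / r) ≤ Ψ y)
    (hM : ∫⁻ x in Set.Ioo (-(R + 1)) (R + 1), Ψ x < ∞) : ∃ t : Finset ℝ, (∀ q ∈ Q, |q| < R → q ∈ t) ∧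
      t.card * ENNReal.ofReal c ≤ ∫⁻ x in Set.Ioo (-(R + 1)) (R + 1), Ψ x := by
  choose! r r0 r1 r2 r3 using h
  have h1 : ∀ t : Finset ℝ, ↑t ⊆ {q ∈ Q | |q| < R} →
      t.card * ENNReal.ofReal c ≤ ∫⁻ x in Set.Ioo (-(R + 1)) (R + 1), Ψ x := fun t ht => by
    refine le_trans ?_ (lintegral_mono_set (s := ⋃ q ∈ t, Set.Ioo q (q + r q))
      (Set.iUnion₂_subset fun q hq y hy => ?_))
    · rw [lintegral_biUnion_finset _ fun _ _ => measurableSet_Ioo, ← nsmul_eq_mul]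
      · refine Finset.card_nsmul_le_sum _ _ _ fun q hq => le_trans ?_
          (setLIntegral_mono' measurableSet_Ioo (r3 q (ht hq).1))
        have := r0 q (ht hq).1
        rw [setLIntegral_const, Real.volume_Ioo, ← ENNReal.ofReal_mul (by positivity),
          add_sub_cancel_left, div_mul_cancel₀ _ this.ne']
      · intro p hp q hq hpq
        wlog h2 : p < q generalizing p q
        · exact (this hq hp hpq.symm (lt_of_le_of_ne (not_lt.1 h2) hpq.symm)).symm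
        exact Set.disjoint_left.2 fun y h3 h4 => r2 p (ht hp).1 q (ht hq).1 ⟨h2, h4.1.trans h3.2⟩
    · have := abs_lt.1 (ht hq).2
      exact ⟨by linarith [hy.1], by linarith [hy.2, r1 q (ht hq).1]⟩
  have h2 : {q ∈ Q | |q| < R}.Finite := by
    by_contra h
    obtain ⟨n, hn⟩ := ENNReal.exists_nat_mul_gt (ENNReal.ofReal_pos.2 hc).ne' hM.ne
    obtain ⟨t, h3, rfl⟩ := Set.Infinite.exists_subset_card_eq h n
    exact hn.not_ge (h1 t h3)
  exact ⟨h2.toFinset, fun q h3 h4 => h2.mem_toFinset.2 ⟨h3, h4⟩, h1 _ (by simp)⟩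

namespace St

variable (T : St)

noncomputable def lab (x : ℝ) : ℕ := ⌊Int.fract x / T.κ⌋₊

lemma lab_spec (x : ℝ) : T.lab x * T.κ ≤ x - ⌊x⌋ ∧ x - ⌊x⌋ < T.lab x * T.κ + T.κ :=
  ⟨(le_div_iff₀ T.κ0).1 (Nat.floor_le (div_nonneg (Int.fract_nonneg x) T.κ0.le)),
    add_one_mul (T.lab x : ℝ) T.κ ▸ (div_lt_iff₀ T.κ0).1 (Nat.lt_floor_add_one _)⟩

def Lab (A : Finset ℕ) (z : ℝ) (w : List (Equiv.Perm ℝ)) : Prop :=
  ∀ u v, w = u ++ v → u ≠ [] → T.Con (ev u z) v → T.lab (ev u z) ∈ A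

noncomputable def Phi (A : Finset ℕ) (μ x : ℝ) : ℝ≥0∞ :=
  ⨆ (z) (w) (_ : T.Con z w ∧ T.lab z ∈ A ∧ T.Lab A z w ∧ |(ev w)⁻¹ x - z| < 3 * T.κ),
    ENNReal.ofReal (exp (-(μ * w.length) - lg (ev w) z))

lemma Phi_meas (A : Finset ℕ) (μ : ℝ) : Measurable (T.Phi A μ) := by
  refine measurable_of_Ioi fun c => IsOpen.measurableSet (isOpen_iff_eventually.2 fun x hx => ?_)
  simp only [Set.mem_preimage, Set.mem_Ioi, Phi, lt_iSup_iff] at hx ⊢
  obtain ⟨z, w, h, h1⟩ := hx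
  filter_upwards [(((evC h.1.1).2.continuous.sub continuous_const).abs.continuousAt).eventually
    (gt_mem_nhds h.2.2.2)] with y hy
  exact ⟨z, w, ⟨h.1, h.2.1, h.2.2.1, hy⟩, h1⟩

variable {T} {z x μ : ℝ} {u v w : List (Equiv.Perm ℝ)} {A : Finset ℕ}

lemma Lab.suf (h : T.Lab A z (u ++ v)) : T.Lab A (ev u z) v := by
  rintro a b rfl h1 h2
  have := h (u ++ a) b (by simp) (by simp [h1])
  rw [ev_app] at this
  exact this h2

lemma ball_pre (h : T.Con z (u ++ v)) (hx : |(ev (u ++ v))⁻¹ x - z| < 3 * T.κ) :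
    |(ev v)⁻¹ x - ev u z| < 3 * T.κ := by
  have h1 := contr h.pre (x := z) (by simp [T.κ0.le]) hx.le
  rw [show ev u ((ev (u ++ v))⁻¹ x) = (ev v)⁻¹ x by simp [ev_app]] at h1
  exact (h1.trans (mul_le_of_le_one_left (abs_nonneg _) (exp_le_one_iff.2 (neg_nonpos.2
    (mul_nonneg (half_pos T.l0).le (Nat.cast_nonneg _)))))).trans_lt hx

lemma star (h : T.Con z w) (hA : T.Lab A z w) (hμ : T.l ≤ μ) (hx : |(ev w)⁻¹ x - z| < 3 * T.κ) :
    ENNReal.ofReal (exp (-T.L - μ * w.length - lg (ev w) z)) ≤ 1 + T.Phi A μ x := by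
  rcases w with _ | ⟨s, w⟩
  · exact le_add_right (ENNReal.ofReal_le_one.2 (exp_le_one_iff.2 (by simp [lg_one, T.L0])))
  obtain ⟨u, v, rfl, h1, h2⟩ := pliss (w := w) (fun t ht => h.1 t (by simp [ht])) (s z)
  have e : ev (s :: u) = ev u * s := by rw [← List.singleton_append, ev_app, ev_one]
  have h3 : T.Con (ev (s :: u) z) v := e ▸ h1
  rw [← List.cons_append] at *
  refine le_add_left (le_iSup_of_le (ev (s :: u) z) (le_iSup₂_of_le v
    ⟨h3, hA _ _ rfl (by simp) h3, hA.suf, ball_pre h hx⟩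
    (ENNReal.ofReal_le_ofReal (exp_le_exp.2 ?_))))
  have h4 : s ∈ T.S := h.1 s (by simp)
  rw [ev_app, lg_mul (evC h3.1) (evC h.pre.1), e,
    lg_mul (evC fun t ht => h.1 t (by simp [ht])) (T.hΓ (T.hS s h4)), List.length_append,
    List.length_cons]
  push_cast
  nlinarith [T.hL s h4 z, T.l0, (Nat.cast_nonneg u.length : (0 : ℝ) ≤ _)]

lemma split (h : T.Con z w) (hA : T.Lab A z w) : ∃ u v, w = u ++ v ∧ T.Con (ev u z) v ∧
    T.lab (ev u z) = T.lab z ∧ T.Lab (A.erase (T.lab z)) (ev u z) v := by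
  classical
  obtain ⟨u, hu, h1⟩ := (w.inits.toFinset.filter fun u => ∃ v, w = u ++ v ∧ T.Con (ev u z) v ∧
    T.lab (ev u z) = T.lab z).exists_max_image List.length ⟨[], by simpa using h⟩
  simp only [Finset.mem_filter, List.mem_toFinset, List.mem_inits] at hu h1
  obtain ⟨-, v, rfl, h2, h3⟩ := hu
  refine ⟨u, v, rfl, h2, h3, ?_⟩
  rintro a b rfl h4 h5
  refine Finset.mem_erase.2 ⟨fun h6 => ?_, hA.suf a b rfl h4 h5⟩
  have := h1 (u ++ a) ⟨⟨b, by simp⟩, b, by simp, by rwa [ev_app], by rwa [ev_app]⟩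
  simp [h4] at this

def Q (T : St) (A : Finset ℕ) (J a : ℕ) : Set ℝ := {q | ∃ z v p, T.Con z v ∧ v.length = a ∧
  T.lab z = J ∧ T.Lab A z v ∧ T.Cen (J * T.κ - T.κ) (J * T.κ + 2 * T.κ) p ∧
  |p - (J * T.κ + T.κ / 2)| ≤ T.κ ∧ q = ev v (p + ⌊z⌋)}

lemma Qsep {C e : ℝ} (hC : 0 ≤ C) (he : 0 ≤ e) (hd : ∀ z w, T.Con z w → ∀ x y, |x - z| ≤ 3 * T.κ →
    |y - z| ≤ 3 * T.κ → exp (lg (ev w) z - C - e * w.length) * |y - x| ≤ |ev w y - ev w x|)
    (hμ : T.l ≤ μ) (J a : ℕ) : ∀ q ∈ T.Q A J a, ∃ r, 0 < r ∧ r ≤ 1 ∧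
      (∀ q' ∈ T.Q A J a, q' ∉ Set.Ioo q (q + r)) ∧ ∀ y ∈ Set.Ioo q (q + r), ENNReal.ofReal
        (exp (-T.L - μ * a - C - e * a) * (T.κ / 2) / r) ≤ 1 + T.Phi A μ y := by
  rintro _ ⟨z, v, p, h1, rfl, rfl, h2, h3, h4, rfl⟩
  have κ0 := T.κ0
  have κ1 := T.κ1
  have h5 := T.lab_spec z
  rw [abs_le] at h4
  have h6 : ∀ y ∈ Set.Ioo (ev v (p + ⌊z⌋)) (ev v (p + ⌊z⌋) + exp (lg (ev v) z - C - e * v.length) *
      (T.κ / 2)), |(ev v)⁻¹ y - (p + ⌊z⌋)| < T.κ / 2 := fun y hy =>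
    ball_img (evC h1.1).1.continuous (half_pos κ0) (fun x hx => by
      have := abs_le.1 hx.le
      exact hx ▸ hd z v h1 _ x (abs_le.2 ⟨by linarith, by linarith⟩)
        (abs_le.2 ⟨by linarith, by linarith⟩))
      (by simpa using abs_lt.2 ⟨by linarith [hy.1, hy.2], by linarith [hy.2]⟩)
  refine ⟨exp (lg (ev v) z - C - e * v.length) * (T.κ / 2), by positivity, ?_, ?_,
    fun y hy => le_of_eq_of_le ?_ (star h1 h2 hμ (x := y) ?_)⟩
  rotate_left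
  · rintro _ ⟨z', v', p', k1, -, k2, -, k3, k4, rfl⟩ hq
    have h7 := abs_lt.1 (h6 _ hq)
    have := cen_eq (g := tr (-⌊z⌋ : ℤ) * (ev v)⁻¹ * ev v' * tr ⌊z'⌋) (by linarith) h3 k3
      (mul_mem (mul_mem (mul_mem (T.htr _) (inv_mem (evΓ h1.1))) (evΓ k1.1)) (T.htr _))
      ⟨by linarith, by linarith⟩ (by
        simp only [Equiv.Perm.mul_apply, tr_apply, Int.cast_neg]; constructor <;> linarith)
    simp only [Equiv.Perm.mul_apply, tr_apply, Int.cast_neg, add_neg_eq_iff_eq_add,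
      Equiv.Perm.inv_eq_iff_eq] at this
    exact hq.1.ne' this
  · rw [mul_div_mul_right _ _ (half_pos κ0).ne', ← exp_sub]; congr 2; ring
  · have := abs_lt.1 (h6 y hy)
    exact abs_lt.2 ⟨by linarith, by linarith⟩
  · have := h1.2 v [] (by simp)
    have := mul_nonneg T.l0.le (Nat.cast_nonneg v.length)
    have := mul_nonneg he (Nat.cast_nonneg v.length)
    exact mul_le_one₀ (exp_le_one_iff.2 (by linarith)) (by linarith) (by linarith)

lemma nontriv (h : T.Con z (u ++ v)) (h1 : T.Con (ev u z) v) (h2 : T.lab (ev u z) = T.lab z)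
    (h3 : T.Lab A (ev u z) v) (h4 : exp (-(T.l / 2 * u.length)) ≤ 1 / 6) :
    ∃ y, |y - z| ≤ 2 * T.κ ∧ ev (u ++ v) y ∈ T.Q A (T.lab z) v.length := by
  have κ0 := T.κ0
  have h5 := T.lab_spec z
  have h6 := T.lab_spec (ev u z)
  rw [h2] at h6
  have h7 : ∀ y ∈ Set.Icc (T.lab z * T.κ - T.κ) (T.lab z * T.κ + 2 * T.κ),
      |y + ⌊z⌋ - z| ≤ 2 * T.κ := fun y hy => abs_le.2 ⟨by linarith [hy.1], by linarith [hy.2]⟩
  have h8 := fun y hy => abs_le.1 ((contr h.pre (x := z) (by simp [κ0.le])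
    ((h7 y hy).trans (by linarith))).trans (mul_le_mul h4 (h7 y hy) (abs_nonneg _) (by norm_num)))
  obtain ⟨p, hp, e, hc⟩ := cen_of (f := tr (-⌊ev u z⌋ : ℤ) * ev u * tr ⌊z⌋)
    (a := T.lab z * T.κ - T.κ) (b := T.lab z * T.κ + 2 * T.κ)
    (mul_mem (mul_mem (T.htr _) (evΓ h.pre.1)) (T.htr _)) (by linarith) (fun y hy => by
      have := h8 y hy
      simp only [Equiv.Perm.mul_apply, tr_apply, Int.cast_neg]; constructor <;> linarith)
    fun x hx y hy => by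
      have := contr h.pre ((h7 x hx).trans (by linarith)) ((h7 y hy).trans (by linarith))
      simp only [Equiv.Perm.mul_apply, tr_apply, add_sub_add_right_eq_sub] at this ⊢
      exact this.trans (mul_le_mul_of_nonneg_right (by linarith) (abs_nonneg _))
  simp only [Equiv.Perm.mul_apply, tr_apply, Int.cast_neg, add_neg_eq_iff_eq_add] at e
  have h9 := h8 p hp
  exact ⟨p + ⌊z⌋, h7 p hp, _, v, p, h1, rfl, h2, h3, hc, abs_le.2 ⟨by linarith, by linarith⟩,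
    by rw [ev_app, ← e]; rfl⟩

end St

end Pool.Agent.H.MP_12d91b_an
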