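import Pool.Agent.H.MP_12d91b_an.B

set_option autoImplicit false

namespace Pool.Agent.H.MP_12d91b_an

open scoped Topology ENNReal
open Filter Real MeasureTheory
open Pool.Agent.H.MP_fb0356_an (tr tr_apply tr_inv tr_add)

noncomputable def psi (η : ℝ) : ℝ → ℝ≥0∞ :=
  (Metric.ball 0 1).indicator fun u => ENNReal.ofReal (|u| ^ (η - 1))

lemma psi_meas (η : ℝ) : Measurable (psi η) :=
  Measurable.indicator (by fun_prop) measurableSet_ball

lemma psi_fin {η : ℝ} (h : 0 < η) : ∫⁻ u, psi η u < ∞ := by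
  rw [psi, lintegral_indicator measurableSet_ball]
  exact (integrableOn_ball_of_norm_le_rpow (C := 1) (α := 1 - η) (by simp) (by simpa)
    (Eventually.of_forall fun x => by simp [abs_of_nonneg (rpow_nonneg (abs_nonneg x) _)])
    (Measurable.aestronglyMeasurable (by fun_prop))).lintegral_lt_top

namespace St

theorem fin (T : St) (A : Finset ℕ) :
    ∀ μ, T.l < μ → ∀ R, ∫⁻ x in Set.Ioo (-R) R, T.Phi A μ x < ∞ := by
  induction A using Finset.strongInduction with | H A ih => ?_
  intro μ hμ R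
  obtain ⟨γ, γ0, rfl⟩ : ∃ γ > 0, μ = T.l + 5 * γ := ⟨(μ - T.l) / 5, by linarith, by ring⟩
  obtain ⟨C, C0, hC⟩ := T.dist γ0
  obtain ⟨N, hN⟩ := T.exN (show 0 < 1 / 6 by norm_num)
  have L0 := T.L0
  have l0 := T.l0
  have κ0 := T.κ0
  obtain ⟨η, η0, η1, η2⟩ : ∃ η > 0, η ≤ 1 ∧ η * T.L ≤ γ := ⟨γ / (γ + T.L), by positivity,
    (div_le_one (by positivity)).2 (by linarith), by
      rw [div_mul_eq_mul_div, div_le_iff₀ (by positivity)]; nlinarith⟩
  have hM : ∀ J ∈ A, ∀ R, ∫⁻ x in Set.Ioo (-R) R, 1 + T.Phi (A.erase J) (T.l + γ) x < ∞ :=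
    fun J hJ R => by
      rw [lintegral_add_left measurable_const]
      exact ENNReal.add_lt_top.2 ⟨by simp, ih _ (Finset.erase_ssubset hJ) _ (by linarith) R⟩
  choose! t t1 t2 using fun J (hJ : J ∈ A) (a : ℕ) => count (R := R + 1) (by positivity)
    (Qsep (A := A.erase J) (μ := T.l + γ) C0 γ0.le (fun z w h x y h1 h2 => (hC z w h x y h1 h2).1)
    (by linarith) J a) (hM J hJ _)
  have key : ∀ x ∈ Set.Ioo (-R) R, x ∉ (⋃ J, ⋃ a, t J a : Set ℝ) → T.Phi A (T.l + 5 * γ) x ≤
      ∑ J ∈ A, (ENNReal.ofReal (exp (T.L * N + T.L)) * (1 + T.Phi (A.erase J) (T.l + γ) x) +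
      ∑' a : ℕ, ENNReal.ofReal (exp (C - (T.l + 3 * γ) * a)) * ∑ q ∈ t J a, psi η (x - q)) := by
    intro x hx hx'
    refine iSup_le fun z => iSup₂_le fun w ⟨h1, h2, h3, h4⟩ => le_trans ?_
      (Finset.single_le_sum (fun _ _ => zero_le) h2)
    obtain ⟨u, v, rfl, h5, h6, h7⟩ := split h1 h3
    have n0 : (0 : ℝ) ≤ u.length := Nat.cast_nonneg _
    have n1 : (0 : ℝ) ≤ v.length := Nat.cast_nonneg _
    rcases lt_or_ge u.length N with h8 | h8
    · refine le_add_right (le_trans ?_ (mul_le_mul_right (star h5 h7 (by linarith)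
        (ball_pre h1 h4)) _))
      rw [← ENNReal.ofReal_mul (exp_pos _).le, ← exp_add, ev_app, lg_mul (evC h5.1) (evC h1.pre.1),
        List.length_append]
      refine ENNReal.ofReal_le_ofReal (exp_le_exp.2 ?_)
      have := mul_le_mul_of_nonneg_left (Nat.cast_le (α := ℝ).2 h8.le) L0
      push_cast
      nlinarith [low h1.pre.1 z]
    · obtain ⟨y, h9, h10⟩ := nontriv h1 h5 h6 h7 ((exp_le_exp.2 (neg_le_neg
        (mul_le_mul_of_nonneg_left (Nat.cast_le.2 h8) (by positivity)))).trans hN)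
      have h11 : |(ev (u ++ v))⁻¹ x - y| < 1 := by
        rw [abs_lt] at *; rw [abs_le] at h9; constructor <;> linarith [T.κ1]
      have h12 := contr h1 (h9.trans (by linarith)) h4.le
      have h13 := (hC _ _ h1 _ _ (h9.trans (by linarith)) h4.le).2.trans
        (mul_le_of_le_one_right (exp_pos _).le h11.le)
      rw [show ev (u ++ v) ((ev (u ++ v))⁻¹ x) = x by simp] at h12 h13
      replace h12 := (h12.trans (mul_le_of_le_one_left (abs_nonneg _) (exp_le_one_iff.2
        (neg_nonpos.2 (by positivity))))).trans_lt h11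
      have h14 := t1 _ h2 _ _ h10 (by
        rw [abs_lt] at *; constructor <;> linarith [hx.1, hx.2])
      have h15 : 0 < |x - ev (u ++ v) y| := abs_pos.2 (sub_ne_zero.2 fun h =>
        hx' (Set.mem_iUnion₂.2 ⟨_, _, h ▸ h14⟩))
      refine le_add_left (le_trans ?_ (ENNReal.le_tsum v.length))
      refine le_trans ?_ (mul_le_mul_right (Finset.single_le_sum (fun _ _ => zero_le) h14) _)
      rw [psi, Set.indicator_of_mem (mem_ball_zero_iff.2 h12), ← ENNReal.ofReal_mul (exp_pos _).le,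
        rpow_def_of_pos h15, ← exp_add]
      refine ENNReal.ofReal_le_ofReal (exp_le_exp.2 ?_)
      rw [← log_le_iff_le_exp h15] at h13
      have h16 := low h1.1 z
      rw [List.length_append] at *
      push_cast at *
      nlinarith [mul_le_mul_of_nonneg_left h13 (sub_nonneg.2 η1), mul_le_mul_of_nonneg_left h16 η0.le,
        mul_le_mul_of_nonneg_right η2 (add_nonneg n0 n1), mul_nonneg η0.le C0,
        mul_nonneg η0.le (mul_nonneg γ0.le (add_nonneg n0 n1))]
  have m1 : ∀ J a, Measurable fun x => ∑ q ∈ t J a, psi η (x - q) := fun J a =>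
    Finset.measurable_sum _ fun q _ => (psi_meas η).comp (measurable_id.sub_const q)
  have m2 : ∀ J, Measurable fun x => ENNReal.ofReal (exp (T.L * N + T.L)) *
      (1 + T.Phi (A.erase J) (T.l + γ) x) := fun J =>
    (measurable_const.add (T.Phi_meas _ _)).const_mul _
  refine (setLIntegral_mono_ae' measurableSet_Ioo (((Set.countable_iUnion fun J =>
    Set.countable_iUnion fun a => (t J a).countable_toSet).ae_notMem _).mono
    fun x h hx => key x hx h)).trans_lt ?_
  refine (lintegral_finset_sum _ fun J _ => (m2 J).add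
    (Measurable.ennreal_tsum fun a => (m1 J a).const_mul _)).trans_lt
    (ENNReal.sum_lt_top.2 fun J hJ => ?_)
  simp only [Pi.add_apply]
  rw [lintegral_add_left (m2 J), lintegral_const_mul' _ _ ENNReal.ofReal_ne_top,
    lintegral_tsum fun a => ((m1 J a).const_mul _).aemeasurable]
  refine ENNReal.add_lt_top.2 ⟨ENNReal.mul_lt_top ENNReal.ofReal_lt_top (hM J hJ R), ?_⟩
  refine (ENNReal.tsum_le_tsum (g := fun a => ENNReal.ofReal (exp (2 * C + T.L) / (T.κ / 2) *
    exp (-γ) ^ a) * ((∫⁻ x in Set.Ioo (-(R + 1 + 1)) (R + 1 + 1),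
      1 + T.Phi (A.erase J) (T.l + γ) x) * ∫⁻ u, psi η u)) fun a => ?_).trans_lt ?_
  · rw [lintegral_const_mul' _ _ ENNReal.ofReal_ne_top, lintegral_finset_sum (f := fun q x => psi η (x - q)) _
      fun q _ => (psi_meas η).comp (measurable_id.sub_const q)]
    refine (mul_le_mul_right (Finset.sum_le_card_nsmul _ _ (∫⁻ u, psi η u) fun q _ =>
      (setLIntegral_le_lintegral _ _).trans (lintegral_sub_right_eq_self _ q).le) _).trans
      (le_of_eq_of_le ?_ (mul_le_mul_right (mul_le_mul_left (t2 J hJ a) _) _))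
    rw [nsmul_eq_mul, mul_right_comm, mul_comm _ (ENNReal.ofReal _), ← mul_assoc _ (ENNReal.ofReal _),
      ← ENNReal.ofReal_mul (by positivity), ← exp_nat_mul]
    congr 2
    field_simp
    rw [← exp_add, ← exp_add]; congr 1; ring
  · rw [ENNReal.tsum_mul_right]
    exact ENNReal.mul_lt_top ((summable_geometric_of_lt_one (exp_pos _).le
      (exp_lt_one_iff.2 (by linarith))).mul_left _).tsum_ofReal_lt_top
      (ENNReal.mul_lt_top (hM J hJ _) (psi_fin η0))

end St

end Pool.Agent.H.MP_12d91b_an
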