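import Pool.Agent.H.MP_12d91b_an.C

set_option autoImplicit false

namespace Pool.Agent.H.MP_12d91b_an

open scoped Topology ENNReal
open Filter Real MeasureTheory
open Pool.Agent.H.MP_fb0356_an (tr tr_apply tr_inv tr_add)
open Pool.Agent.H.MP_76c0db_an (mvt exmax ucont)

namespace St

variable (T : St)

noncomputable def rho (x : ℝ) : ℝ≥0∞ :=
  ⨆ (w) (_ : ∀ s ∈ w, s ∈ T.S), ENNReal.ofReal (exp (-(2 * T.l * w.length) + lg (ev w)⁻¹ x))

lemma rho_meas : Measurable T.rho :=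
  (lowerSemicontinuous_iSup fun _ => lowerSemicontinuous_iSup fun h =>
    (ENNReal.continuous_ofReal.comp (continuous_exp.comp (continuous_const.add
      (lg_cont (inv_mem (evC h)))))).lowerSemicontinuous).measurable

lemma rho_one (x : ℝ) : 1 ≤ T.rho x := le_iSup₂_of_le [] (by simp) (by simp [lg_one])

lemma rho_le (x : ℝ) : T.rho x ≤ T.Phi (Finset.range (⌊1 / T.κ⌋₊ + 1)) (2 * T.l) x := by
  have h0 : ∀ z, T.lab z ∈ Finset.range (⌊1 / T.κ⌋₊ + 1) := fun z => Finset.mem_range_succ_iff.2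
    (Nat.floor_mono (div_le_div_of_nonneg_right (Int.fract_lt_one z).le T.κ0.le))
  refine iSup₂_le fun w hw => ?_
  obtain ⟨u, v, rfl, h1, h2⟩ := pliss hw ((ev w)⁻¹ x)
  have h3 := lg_mul (evC hw) (inv_mem (evC hw)) x
  rw [mul_inv_cancel, lg_one] at h3
  nth_rw 1 [ev_app] at h3
  rw [lg_mul (evC h1.1) (evC fun s hs => hw s (by simp [hs]))] at h3
  refine le_iSup_of_le _ (le_iSup₂_of_le v ⟨h1, h0 _, fun _ _ _ _ _ => h0 _,
    by simpa [ev_app] using T.κ0⟩ (ENNReal.ofReal_le_ofReal (exp_le_exp.2 ?_)))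
  rw [List.length_append]; push_cast
  nlinarith [T.l0, (Nat.cast_nonneg u.length : (0 : ℝ) ≤ _)]

lemma rho_inv {s : Equiv.Perm ℝ} (h : s⁻¹ ∈ T.S) (x : ℝ) :
    ENNReal.ofReal |deriv s x| * T.rho (s x) ≤ ENNReal.ofReal (exp (2 * T.l)) * T.rho x := by
  have hs : s ∈ C1 := inv_mem_iff.1 (T.hΓ (T.hS _ h))
  simp only [rho, ENNReal.mul_iSup]
  refine iSup₂_le fun w hw => le_iSup₂_of_le (w ++ [s⁻¹]) (by simpa [or_imp, forall_and, h]) ?_
  rw [← exp_log_eq_abs (D_ne hs x), ← ENNReal.ofReal_mul (exp_pos _).le,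
    ← ENNReal.ofReal_mul (exp_pos _).le, ← exp_add, ← exp_add, ev_app, ev_one, mul_inv_rev, inv_inv,
    lg_mul (inv_mem (evC hw)) hs, List.length_append, List.length_singleton, lg, lg]
  push_cast
  exact le_of_eq (by congr 2; ring)

theorem line (h1 : ∀ s ∈ T.S, s⁻¹ ∈ T.S) (h2 : ∀ g ∈ T.Γ, Function.Periodic (deriv g) 1) :
    ∃ H : ℝ → ℝ, Continuous H ∧ StrictMono H ∧ (∀ x, H (x + 1) = H x + 1) ∧
      ∀ s ∈ T.S, ∀ x y, |H (s y) - H (s x)| ≤ exp (2 * T.l) * |H y - H x| := by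
  have h3 : ∀ x y, ∫⁻ t in Set.Icc x y, T.rho t ≠ ∞ := fun x y =>
    ((lintegral_mono_set (Set.Icc_subset_Ioo (a₂ := -(|x| + |y| + 1)) (b₂ := |x| + |y| + 1)
      (by linarith [neg_abs_le x, abs_nonneg y]) (by linarith [le_abs_self y, abs_nonneg x]))).trans_lt
      ((lintegral_mono T.rho_le).trans_lt
      (T.fin _ _ (by linarith [T.l0]) _))).ne
  have h4 : ∀ x y, IntervalIntegrable (fun t => (T.rho t).toReal) volume x y := fun x y =>
    IntegrableOn.intervalIntegrable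
      (integrable_toReal_of_lintegral_ne_top T.rho_meas.aemeasurable (h3 _ _))
  obtain ⟨F, hF⟩ : ∃ F : ℝ → ℝ, F = fun x => ∫ t in 0..x, (T.rho t).toReal := ⟨_, rfl⟩
  have h5 : ∀ x y, F y - F x = ∫ t in x..y, (T.rho t).toReal := fun x y =>
    hF ▸ intervalIntegral.integral_interval_sub_left (h4 _ _) (h4 _ _)
  have h6 : ∀ x y, x ≤ y → F y - F x = (∫⁻ t in Set.Icc x y, T.rho t).toReal := fun x y h => by
    rw [h5, intervalIntegral.integral_of_le h, ← integral_Icc_eq_integral_Ioc,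
      integral_toReal T.rho_meas.aemeasurable (ae_lt_top T.rho_meas (h3 _ _))]
  have h7 : ∀ x y, |F y - F x| = (∫⁻ t in Set.uIcc x y, T.rho t).toReal := fun x y => by
    rcases le_total x y with h | h
    · rw [Set.uIcc_of_le h, h6 x y h, abs_of_nonneg ENNReal.toReal_nonneg]
    · rw [Set.uIcc_of_ge h, abs_sub_comm, h6 y x h, abs_of_nonneg ENNReal.toReal_nonneg]
  have h8 : StrictMono F := fun x y h => by
    have := ENNReal.toReal_mono (h3 x y) (lintegral_mono (μ := volume.restrict (Set.Icc x y))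
      T.rho_one)
    rw [← h6 x y h.le] at this
    simp [h.le] at this; linarith
  have h9 : ∀ x, F (x + 1) - F x = F 1 - F 0 := fun x => by
    rw [h5, h5, Function.Periodic.intervalIntegral_add_eq _ x 0, zero_add]
    intro t
    simp only [rho, lg]
    congr 1
    exact iSup_congr fun w => iSup_congr fun hw => by rw [h2 _ (inv_mem (evΓ hw))]
  have c0 := sub_pos.2 (h8 one_pos)
  refine ⟨fun x => F x / (F 1 - F 0), (hF ▸ intervalIntegral.continuous_primitive h4 0).div_const _,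
    h8.div_const c0, fun x => by field_simp; linarith [h9 x], fun s hs x y => ?_⟩
  have hs' := T.hΓ (T.hS s hs)
  rw [← sub_div, ← sub_div, abs_div, abs_div, ← mul_div_assoc, h7, h7 x]
  refine div_le_div_of_nonneg_right ?_ (abs_nonneg _)
  rw [← ENNReal.toReal_ofReal_mul _ _ (exp_pos _).le]
  refine ENNReal.toReal_mono (ENNReal.mul_ne_top ENNReal.ofReal_ne_top (h3 _ _))
    ((lintegral_mono_set (intermediate_value_uIcc hs'.1.continuous.continuousOn)).trans ?_)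
  rw [lintegral_image_eq_lintegral_abs_deriv_mul measurableSet_uIcc
    (fun t _ => (dif hs' t).hasDerivAt.hasDerivWithinAt) s.injective.injOn,
    ← lintegral_const_mul' _ _ ENNReal.ofReal_ne_top]
  exact lintegral_mono fun t => T.rho_inv (h1 s hs) t

end St

lemma desc {H : ℝ → ℝ} (hc : Continuous H) (h : ∀ x, H (x + 1) = H x + 1) :
    ∃ φ : UnitAddCircle → UnitAddCircle, Continuous φ ∧ ∀ x : ℝ, φ x = H x := by
  have h1 : Function.Periodic (fun x => (H x : UnitAddCircle)) 1 := fun x => by simp [h]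
  exact ⟨h1.lift, (QuotientAddGroup.isQuotientMap_mk _).continuous_iff.2
    (continuous_quotient_mk'.comp hc), fun _ => rfl⟩

lemma homeo {H : ℝ → ℝ} (hc : Continuous H) (hm : StrictMono H) (h : ∀ x, H (x + 1) = H x + 1) :
    H.Surjective ∧ ∃ φ : UnitAddCircle ≃ₜ UnitAddCircle, ∀ x : ℝ, φ x = H x := by
  let F : CircleDeg1Lift := ⟨⟨H, hm.monotone⟩, h⟩
  have h1 : H.Surjective := F.continuous_iff_surjective.1 hc
  let E := hm.orderIsoOfSurjective H h1
  obtain ⟨φ, φ1, φ2⟩ := desc hc h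
  obtain ⟨ψ, ψ1, ψ2⟩ := desc E.symm.continuous fun x => E.injective
    ((E.apply_symm_apply _).trans ((h _).trans (congrArg (· + 1) (E.apply_symm_apply x))).symm)
  exact ⟨h1, ⟨⟨φ, ψ, fun a => QuotientAddGroup.induction_on a fun x => by
      rw [φ2, ψ2]; exact congrArg _ (E.symm_apply_apply x),
    fun a => QuotientAddGroup.induction_on a fun x => by
      rw [ψ2, φ2]; exact congrArg _ (E.apply_symm_apply x)⟩, φ1, ψ1⟩, φ2⟩

lemma per {g : ℝ → ℝ} (hg : Continuous g) {φ : UnitAddCircle → UnitAddCircle}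
    (h : ∀ x : ℝ, φ x = g x) : Function.Periodic (deriv g) 1 := fun x => by
  have h1 : ∀ x, ∃ k : ℤ, (k : ℝ) = g (x + 1) - g x := fun x => by
    have : ((g (x + 1) - g x : ℝ) : UnitAddCircle) = 0 := by simp [← h]
    simpa using (AddCircle.coe_eq_zero_iff _).1 this
  choose k hk using h1
  have h2 : Continuous k := Int.isClosedEmbedding_coe_real.isEmbedding.continuous_iff.2
    (((hg.comp (continuous_id.add continuous_const)).sub hg).congr fun x => (hk x).symm)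
  have h3 : ∀ y, g (y + 1) = g y + k 0 := fun y => by
    rw [← PreconnectedSpace.constant inferInstance h2 (x := y) (y := 0), hk]; ring
  rw [← deriv_comp_add_const, funext h3, deriv_add_const]

theorem main (S : Set (Equiv.Perm UnitAddCircle)) (hS : S.Finite) (h1 : ∀ s ∈ S, s⁻¹ ∈ S)
    (h2 : ∀ s ∈ S, ∃ F ∈ C1, ∀ x : ℝ, s x = F x)
    (h3 : ∀ f ∈ Subgroup.closure S, ∀ g ∈ Subgroup.closure S, ∀ x a b c d y : ℝ, x < a → a < b →
      b < c → c < d → d < y → y < x + 1 → f x = a → f y = b → g x = c → g y = d → False)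
    {ε : ℝ} (hε : 0 < ε) : ∃ h : UnitAddCircle ≃ₜ UnitAddCircle, ∀ s ∈ S, ∀ a b,
      dist (h (s (h.symm a))) (h (s (h.symm b))) ≤ exp ε * dist a b := by
  let Γ : Subgroup (Equiv.Perm ℝ) :=
    { carrier := {F | F ∈ C1 ∧ ∃ φ ∈ Subgroup.closure S, ∀ x : ℝ, φ x = F x}
      one_mem' := ⟨one_mem _, 1, one_mem _, fun _ => rfl⟩
      mul_mem' := fun ⟨a1, φ, a2, a3⟩ ⟨b1, ψ, b2, b3⟩ =>
        ⟨mul_mem a1 b1, φ * ψ, mul_mem a2 b2, fun x => by simp [a3, b3]⟩
      inv_mem' := fun ⟨a1, φ, a2, a3⟩ => ⟨inv_mem a1, φ⁻¹, inv_mem a2, fun x => by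
        rw [Equiv.Perm.inv_eq_iff_eq, a3]; simp⟩ }
  choose! F F1 F2 using h2
  have hp : ∀ g ∈ Γ, Function.Periodic (deriv g) 1 := fun g ⟨a1, _, _, a3⟩ => per a1.1.continuous a3
  have hp' : ∀ g ∈ Γ, Function.Periodic (lg g) 1 := fun g hg x => by simp only [lg, hp g hg x]
  have h4 : (F '' S ∪ (F '' S)⁻¹).Finite := (hS.image F).union (hS.image F).inv
  have h5 : ∀ s ∈ F '' S, s ∈ Γ := by
    rintro _ ⟨s, hs, rfl⟩; exact ⟨F1 s hs, s, Subgroup.subset_closure hs, F2 s hs⟩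
  have h6 : ∀ s ∈ F '' S ∪ (F '' S)⁻¹, s ∈ Γ := fun s hs =>
    hs.elim (h5 s) fun h => inv_mem_iff.1 (h5 _ h)
  have h7 : ∀ e > 0, ∀ᶠ d in 𝓝[>] (0 : ℝ), ∀ s ∈ F '' S ∪ (F '' S)⁻¹, ∀ y z, |y - z| ≤ d →
      |lg s y - lg s z| ≤ e := fun e he => (h4.eventually_all).2 fun s hs => by
    obtain ⟨M, M0, hM⟩ := ucont (lg_cont (h6 s hs).1) (hp' s (h6 s hs)) he
    filter_upwards [Ioo_mem_nhdsGT M0] with d hd y z h using (hM y z (h.trans_lt hd.2)).le
  obtain ⟨L, L0, hL⟩ := ((eventually_ge_atTop (0 : ℝ)).and ((h4.eventually_all (p := fun s L =>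
    ∀ x, -L ≤ lg s x)).2 fun s hs => by
      obtain ⟨b, hb⟩ := exmax (lg_cont (h6 s hs).1).neg fun x => by simp [hp' s (h6 s hs) x]
      filter_upwards [eventually_ge_atTop (-lg s b)] with L hL x using
        neg_le.1 ((hb x).trans hL))).exists
  obtain ⟨d, hd, d0⟩ := ((h7 (ε / 2 / 2) (by positivity)).and (Ioo_mem_nhdsGT one_half_pos)).exists
  obtain ⟨H, k1, k2, k3, k4⟩ := St.line ⟨Γ, F '' S ∪ (F '' S)⁻¹, ε / 2, d / 3, L, fun _ h => h.1, h6,
    fun k => ⟨⟨contDiff_id.add contDiff_const, by rw [tr_inv]; exact contDiff_id.add contDiff_const⟩,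
      1, one_mem _, fun x => by simp⟩, half_pos hε, by linarith [d0.1], by linarith [d0.2], L0, hL,
    fun s hs y z h => hd s hs y z (by linarith), fun e he =>
      let ⟨d, h, h'⟩ := ((h7 e he).and self_mem_nhdsWithin).exists; ⟨d, h', h⟩,
    fun f ⟨_, φ, a1, a2⟩ g ⟨_, ψ, b1, b2⟩ x y c1 c2 c3 c4 c5 c6 =>
      h3 φ a1 ψ b1 x _ _ _ _ y c1 c2 c3 c4 c5 c6 (a2 x) (a2 y) (b2 x) (b2 y)⟩
    (fun s hs => hs.symm.imp (fun h => h) fun h => by simpa using h) hp
  obtain ⟨k5, h, k6⟩ := homeo k1 k2 k3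
  refine ⟨h, fun s hs a b => ?_⟩
  obtain ⟨a, rfl⟩ := QuotientAddGroup.mk_surjective a
  obtain ⟨b, rfl⟩ := QuotientAddGroup.mk_surjective b
  obtain ⟨x, rfl⟩ := k5 a
  obtain ⟨y, e⟩ := k5 (b + round (H x - b))
  have e1 : (b : UnitAddCircle) = H y := by simp [e]
  have := k4 _ (Or.inl ⟨s, hs, rfl⟩) y x
  rw [dist_eq_norm (H x : UnitAddCircle), ← QuotientAddGroup.mk_sub, UnitAddCircle.norm_eq, sub_sub,
    ← e, e1, ← k6, ← k6, h.symm_apply_apply, h.symm_apply_apply, F2 s hs, F2 s hs, k6, k6,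
    dist_eq_norm, ← QuotientAddGroup.mk_sub]
  exact QuotientAddGroup.norm_mk_le_norm.trans (by simpa [mul_div_cancel₀] using this)

end Pool.Agent.H.MP_12d91b_an
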